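import Mathlib
import Pool.Prelude.Def_F_c31e40fa
import Pool.Agent.TH279.DG.AE3

set_option autoImplicit false

open Filter Topology MeasureTheory Set Metric N62a1eb23

namespace Pool.Agent.Results.MP_b511e9_an.DerivativeGrowth

open Pool.Agent.TH279.DG Pool.Agent.H637R4.PO

/-- A necessary condition for `z ↦ z ^ 2 + c` to be renormalizable of period `p`. -/
def Ren (c : ℂ) (p : ℕ) : Prop :=
  2 ≤ p ∧ ∃ U : Set ℂ, IsOpen U ∧ Bornology.IsBounded U ∧ (0 : ℂ) ∈ U ∧
    (∀ n : ℕ, 1 ≤ n → (fun z : ℂ => z ^ 2 + c)^[n * p] 0 ∈ U) ∧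
    closure U ⊆ (fun z : ℂ => z ^ 2 + c)^[p] '' U ∧
    ∀ z ∈ closure U, deriv ((fun z : ℂ => z ^ 2 + c)^[p]) z = 0 → z = 0

/-- The infinitely renormalizable parameters `c` such that, for some `β > 1 / 2` and infinitely many
`n`, the derivative at `c` of the parameter map `a ↦ f_a^n(0)` is larger than `exp (n ^ β)`, or some
parameter `a` at distance less than `exp (-n ^ β)` from `c` escapes from the disc of radius `6` in at
most `n` steps, form a set of measure zero. -/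
theorem result :
    volume {c : ℂ | {p : ℕ | Ren c p}.Infinite ∧ ∃ β : ℝ, 1 / 2 < β ∧
      ∃ᶠ n : ℕ in atTop,
        Real.exp ((n : ℝ) ^ β) < ‖deriv (fun a : ℂ => (fun z : ℂ => z ^ 2 + a)^[n] 0) c‖ ∨
        ∃ a : ℂ, ‖a - c‖ < Real.exp (-(n : ℝ) ^ β) ∧
          ∃ k ≤ n, 6 < ‖(fun z : ℂ => z ^ 2 + a)^[k] 0‖} = 0 := by
  have h1 := ae_ball (d := 2) le_rfl
  have h2 := ae_deriv (d := 2) le_rfl
  rw [ae_restrict_iff' (t_CLO 2 le_rfl).measurableSet] at h1 h2
  have h3 := h1.and h2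
  refine measure_mono_null ?_ h3
  rintro c ⟨hc, β, hβ, hf⟩
  have hcM : c ∈ multibrotSet 2 := by
    obtain ⟨p, hp2, U, _, hUb, _, hU, _, _⟩ := hc.nonempty
    intro ht
    have h1 : Tendsto (fun n : ℕ => (n + 1) * p) atTop atTop := by
      refine tendsto_atTop_mono (fun n => ?_) (tendsto_id (α := ℕ))
      show n ≤ (n + 1) * p
      nlinarith
    have h2 := ht.comp h1
    have h3 : ∀ᶠ z in Bornology.cobounded ℂ, z ∉ U := hUb
    obtain ⟨n, hn⟩ := (h2.eventually h3).exists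
    exact hn (hU (n + 1) (by omega))
  intro hcon
  obtain ⟨n, hn, h5, h6⟩ := (hf.and_eventually
    ((hcon.1 hcM β hβ).and (hcon.2 hcM β hβ))).exists
  rcases hn with hn | ⟨a, ha, k, hk, h7⟩
  · exact absurd hn (not_lt.2 h6)
  · refine absurd h7 (not_lt.2 (h5 a ?_ k hk))
    rw [mem_ball, dist_eq_norm]
    exact ha

end Pool.Agent.Results.MP_b511e9_an.DerivativeGrowth
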